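import Pool.Agent.Lib.MP_b4f117_lc.AC.Final

/-!
# No AC⁰ reduction from `p-WSAT(Γ_{2,d})` to `p-WSAT(Γ_{2,1})`

For `p ≥ 1` and `d ≥ 2 p + 2` there are no circuits of constant depth and size
`(2 ^ k * n) ^ O(1)` which reduce `p-WSAT(Γ_{2,d})` to `p-WSAT(Γ_{2,1})` with a new parameter
`O((k + log n) ^ p)`. For `p = 1`: for `d ≥ 4` there is no ept-reduction in AC⁰ from
`p-WSAT(Γ_{2,d})` to `p-WSAT(Γ_{2,1})`.

The definitions are in `Pool.Agent.Lib.MP_b4f117_lc.AC.Defs`.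
-/

namespace Pool.Agent.Lib.MP_b4f117_lc.Old.NoAC0Reduction

open Pool.Agent.Lib.MP_b4f117_lc.AC

theorem result (p d : ℕ) (hp : 1 ≤ p) (hd : 2 * p + 2 ≤ d) : ¬ AC0Red p d 1 :=
  not_ac0Red p d hp hd

end Pool.Agent.Lib.MP_b4f117_lc.Old.NoAC0Reduction
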